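import Mathlib

set_option autoImplicit false

namespace Pool.Agent.Results.MP_ec2f19_co.Cex

open Finset SimpleGraph

def P : Fin 6 → Fin 40 × Fin 40 := ![(0, 1), (0, 2), (0, 3), (1, 2), (1, 3), (2, 3)]

def φ (g : Fin 6) (i : Fin 8) : Fin 40 :=
  if i = 6 then (P g).1 else if i = 7 then (P g).2 else Fin.ofNat 40 (4 + 6 * g + i)

def T : List (Bool × Fin 8 × Fin 8 × Fin 8) := [
  (false, 0, 1, 2), (false, 0, 1, 4), (false, 0, 2, 4), (false, 1, 0, 6), (false, 1, 0, 7),
  (false, 1, 6, 7), (false, 2, 5, 0), (false, 2, 5, 4), (false, 2, 0, 4), (false, 3, 4, 6),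
  (false, 3, 4, 7), (false, 3, 6, 7), (false, 4, 3, 0), (false, 4, 3, 2), (false, 4, 0, 2),
  (false, 5, 2, 6), (false, 5, 2, 7), (false, 5, 6, 7), (true, 0, 3, 6), (true, 0, 3, 7), (true,
  0, 6, 7), (true, 1, 2, 3), (true, 1, 2, 5), (true, 1, 3, 5), (true, 2, 1, 6), (true, 2, 1, 7),
  (true, 2, 6, 7), (true, 3, 0, 1), (true, 3, 0, 5), (true, 3, 1, 5), (true, 4, 5, 6), (true, 4,
  5, 7), (true, 4, 6, 7), (true, 5, 4, 1), (true, 5, 4, 3), (true, 5, 1, 3)]

def M (γ : Bool) : ℕ := if γ then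
  0x800000000c8000000000080000000ca000000000200000000c0000000000020000000a0200000000002000000a0280000000008000000a0000000000000800000600080000000000800006000a00000000020000060000000000000020000900002000000000020009000028000000000800090000000000000000800500000080000000000805000000a00000000020050000000000000000020300000002000000000023000000028000000000830000000000000000000000000000000000000000 else
  0x100000000c0000000000400000000c4000000000040000000c5000000000004000000a0000000000010000000a0100000000001000000a01400000000001000006000000000000040000060004000000000040000600050000000000040009000000000000001000090000100000000001000900001400000000001005000000000000000040050000004000000000040500000050000000000043000000000000000001030000000100000000001300000001400000000000000000000000000000000000000000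

def G (γ : Bool) : SimpleGraph (Fin 40) := fromRel fun x y => (M γ).testBit (40 * x + y)

instance (γ : Bool) : DecidableRel (G γ).Adj := fun _ _ => inferInstanceAs (Decidable (_ ∧ _))

theorem key : ∀ a b c d e f k : Fin 3, ∃ t ∈ T,
    ![a, b, c, d, e, f, k, k] t.2.2.1 = ![a, b, c, d, e, f, k, k] t.2.1 ∧
    ![a, b, c, d, e, f, k, k] t.2.2.2 = ![a, b, c, d, e, f, k, k] t.2.1 := by decide +kernel

theorem loc : ∀ g, ∀ t ∈ T, (G t.1).degree (φ g t.2.1) = 3 ∧ (G t.1).Adj (φ g t.2.1) (φ g t.2.2.1) ∧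
    (G t.1).Adj (φ g t.2.1) (φ g t.2.2.2) ∧ φ g t.2.2.1 ≠ φ g t.2.2.2 := by decide +kernel

theorem result : ∃ (n : ℕ) (G : Bool → SimpleGraph (Fin n)), Disjoint (G true) (G false) ∧
    (∀ v, ((G true).neighborSet v).ncard = ((G false).neighborSet v).ncard) ∧
    ∀ f : Fin n → Fin 3, ¬ ∀ γ v, {u | (G γ).Adj v u ∧ f u = f v}.ncard ≤
      {u | (G γ).Adj v u ∧ f u ≠ f v}.ncard := by
  refine ⟨40, G, ?_, ?_, fun f h => ?_⟩
  · rw [disjoint_iff]
    ext x y
    revert x y
    simp only [inf_adj, bot_adj]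
    decide +kernel
  · simp only [← coe_neighborFinset, Set.ncard_coe_finset]
    decide +kernel
  obtain ⟨g, hg⟩ : ∃ g, f (φ g 6) = f (φ g 7) :=
    (by decide : ∀ a b c d : Fin 3, a = b ∨ a = c ∨ a = d ∨ b = c ∨ b = d ∨ c = d) (f 0) (f 1) (f 2)
      (f 3) |>.elim (⟨0, ·⟩) (·.elim (⟨1, ·⟩) (·.elim (⟨2, ·⟩) (·.elim (⟨3, ·⟩)
        (·.elim (⟨4, ·⟩) (⟨5, ·⟩)))))
  obtain ⟨t, ht, p⟩ := key (f (φ g 0)) (f (φ g 1)) (f (φ g 2)) (f (φ g 3)) (f (φ g 4)) (f (φ g 5))
    (f (φ g 6))
  rw [show ![f (φ g 0), f (φ g 1), f (φ g 2), f (φ g 3), f (φ g 4), f (φ g 5), f (φ g 6),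
    f (φ g 6)] = fun i => f (φ g i) by
      funext i
      fin_cases i <;> first | rfl | exact hg] at p
  obtain ⟨d, a, b, n⟩ := loc g t ht
  have h := h t.1 (φ g t.2.1)
  have e := card_filter_add_card_filter_not (s := (G t.1).neighborFinset (φ g t.2.1))
    fun u => f u = f (φ g t.2.1)
  have l : 1 < #{u ∈ (G t.1).neighborFinset (φ g t.2.1) | f u = f (φ g t.2.1)} :=
    one_lt_card.2 ⟨_, by simpa using ⟨a, p.1⟩, _, by simpa using ⟨b, p.2⟩, n⟩
  rw [card_neighborFinset_eq_degree, d] at e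
  simp only [← Set.ncard_coe_finset, coe_filter, mem_neighborFinset] at e l
  simp only [ne_eq] at h
  omega

end Pool.Agent.Results.MP_ec2f19_co.Cex
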